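import Mathlib

/-!
# Average-height gaps (Kahn–Saks 1984): statements of the pieces of the disproof

All the pieces `S_...` are `Prop`s; each one is proved in a separate file.
-/

set_option autoImplicit false
set_option linter.unreachableTactic false
set_option linter.unusedTactic false

open MeasureTheory Finset Filter Topology

namespace Pool.Agent.N380.KG

/-! ## 1. Linear extensions and the order polytope -/

/-- average position (counted from 0) -/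
noncomputable def avgH {α : Type} [Fintype α] (L : Finset (α ≃ Fin (Fintype.card α))) (x : α) : ℝ :=
  (∑ f ∈ L, ((f x : ℕ) : ℝ)) / (L.card : ℝ)

/-- `L` is the set of the linear extensions -/
def IsLE {α : Type} [Fintype α] [PartialOrder α] (L : Finset (α ≃ Fin (Fintype.card α))) : Prop :=
  ∀ f : α ≃ Fin (Fintype.card α), f ∈ L ↔ ∀ x y : α, x < y → f x < f y

/-- a poset all of whose gaps are larger than `1 - γ` -/
def Bad (γ : ℝ) : Prop :=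
  ∃ (α : Type) (_ : Fintype α) (_ : PartialOrder α), (∃ a b : α, ¬ a ≤ b ∧ ¬ b ≤ a) ∧
    ∀ L : Finset (α ≃ Fin (Fintype.card α)), IsLE L →
      ∀ x y : α, x ≠ y → 1 - γ < |avgH L y - avgH L x|

/-- open order polytope in the unit cube -/
def OP (α : Type) [PartialOrder α] : Set (α → ℝ) :=
  {t | (∀ x, 0 < t x ∧ t x < 1) ∧ ∀ x y, x < y → t x < t y}

/-- volume and first moments of the order polytope -/
def S_SIM : Prop :=
  ∀ (α : Type) [Fintype α] [PartialOrder α] (L : Finset (α ≃ Fin (Fintype.card α))), IsLE L →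
    0 < L.card ∧
    (∫ _t in OP α, (1 : ℝ)) = (L.card : ℝ) / ((Fintype.card α).factorial : ℝ) ∧
    ∀ x : α, (∫ t in OP α, t x) =
      (∑ f ∈ L, (((f x : ℕ) : ℝ) + 1)) / ((Fintype.card α + 1).factorial : ℝ)

/-- increasing sequences in the interval `(A,B)` -/
def Inc (ℓ : ℕ) (A B : ℝ) : Set (Fin ℓ → ℝ) :=
  {s | (∀ i, A < s i ∧ s i < B) ∧ ∀ i j, i < j → s i < s j}

def S_SCH : Prop :=
  ∀ (ℓ : ℕ) (A B : ℝ), 1 ≤ ℓ →
    (∫ _s in Inc ℓ A B, (1 : ℝ)) = (max 0 (B - A)) ^ ℓ / (ℓ.factorial : ℝ) ∧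
    ∀ i : Fin ℓ, (∫ s in Inc ℓ A B, s i) =
      (max 0 (B - A)) ^ ℓ / (ℓ.factorial : ℝ) * (A + (((i : ℕ) : ℝ) + 1) / ((ℓ : ℝ) + 1) * (B - A))

/-! ## 2. The closure of a left model -/

/-- elements: left copy of the core, right copy of the core, the chains -/
inductive Pt (Q : Type) (n ℓ : ℕ) : Type
  | L : Q → Pt Q n ℓ
  | R : Q → Pt Q n ℓ
  | C : Fin n → Fin ℓ → Pt Q n ℓ

def ptEquiv (Q : Type) (n ℓ : ℕ) : Pt Q n ℓ ≃ (Q ⊕ Q) ⊕ (Fin n × Fin ℓ) where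
  toFun
    | .L x => Sum.inl (Sum.inl x)
    | .R x => Sum.inl (Sum.inr x)
    | .C c i => Sum.inr (c, i)
  invFun
    | Sum.inl (Sum.inl x) => .L x
    | Sum.inl (Sum.inr x) => .R x
    | Sum.inr (c, i) => .C c i
  left_inv := by rintro (_ | _ | _) <;> rfl
  right_inv := by rintro ((_ | _) | ⟨_, _⟩) <;> rfl

noncomputable instance (Q : Type) [Fintype Q] (n ℓ : ℕ) : Fintype (Pt Q n ℓ) :=
  Fintype.ofEquiv _ (ptEquiv Q n ℓ).symm

/-- the order: `L x ≤ L y` iff `x ≤ y`, `R x ≤ R y` iff `y ≤ x`, `L x < R y` always,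
chain `c` lies above `S c` on the left and below the right copy of `S (rev c)` -/
def ptLe {Q : Type} [PartialOrder Q] {n ℓ : ℕ} (S : Fin n → Finset Q) : Pt Q n ℓ → Pt Q n ℓ → Prop
  | .L x, .L y => x ≤ y
  | .R x, .R y => y ≤ x
  | .C c i, .C c' j => c = c' ∧ i ≤ j
  | .L _, .R _ => True
  | .L x, .C c _ => ∃ s ∈ S c, x ≤ s
  | .C c _, .R y => ∃ s ∈ S (Fin.rev c), y ≤ s
  | .R _, .L _ => False
  | .R _, .C _ _ => False
  | .C _ _, .L _ => False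

@[instance_reducible] def ptOrder {Q : Type} [PartialOrder Q] {n ℓ : ℕ} (S : Fin n → Finset Q) :
    PartialOrder (Pt Q n ℓ) where
  le := ptLe S
  le_refl := by rintro (_ | _ | _) <;> simp [ptLe]
  le_trans := by
    rintro (a | a | ⟨a, i⟩) (b | b | ⟨b, j⟩) (c | c | ⟨c, m⟩) h1 h2 <;> simp only [ptLe] at * <;>
      first
        | exact le_trans h1 h2
        | exact le_trans h2 h1
        | trivial
        | (obtain ⟨s, hs, h⟩ := h2; exact ⟨s, hs, le_trans h1 h⟩)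
        | (obtain ⟨s, hs, h⟩ := h1; obtain ⟨rfl, _⟩ := h2; exact ⟨s, hs, h⟩)
        | (obtain ⟨s, hs, h⟩ := h1; exact ⟨s, hs, le_trans h2 h⟩)
        | (obtain ⟨rfl, _⟩ := h1; exact h2)
        | (obtain ⟨rfl, h⟩ := h1; obtain ⟨rfl, h'⟩ := h2; exact ⟨rfl, le_trans h h'⟩)
        | exact h1.elim
        | exact h2.elim
  le_antisymm := by
    rintro (a | a | ⟨a, i⟩) (b | b | ⟨b, j⟩) h1 h2 <;> simp only [ptLe] at * <;>
      first
        | (rw [le_antisymm h1 h2])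
        | (rw [le_antisymm h2 h1])
        | exact h1.elim
        | exact h2.elim
        | (obtain ⟨rfl, h⟩ := h1; rw [le_antisymm h h2.2])

/-- the start of a chain: the maximum over `A` (and `0` if `A` is empty) -/
noncomputable def st {Q : Type} (A : Finset Q) (u : Q → ℝ) : ℝ := A.fold max 0 u

/-- the open order cone -/
def Cone (Q : Type) [PartialOrder Q] : Set (Q → ℝ) :=
  {u | (∀ x, 0 < u x) ∧ ∀ x y, x < y → u x < u y}

/-- domain of the two-sided integral -/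
def Dom2 (Q : Type) [PartialOrder Q] : Set ((Q → ℝ) × (Q → ℝ)) :=
  {p | p.1 ∈ Cone Q ∧ p.2 ∈ Cone Q ∧ ∀ x y, p.1 x + p.2 y < 1}

noncomputable def Wt {Q : Type} {n : ℕ} (S : Fin n → Finset Q) (ℓ : ℕ) (p : (Q → ℝ) × (Q → ℝ)) : ℝ :=
  ∏ c : Fin n, (max 0 (1 - st (S c) p.1 - st (S (Fin.rev c)) p.2)) ^ ℓ

/-- Fubini for the order polytope of `Pt` -/
def S_FUB : Prop :=
  ∀ (Q : Type) [Fintype Q] [Nonempty Q] [PartialOrder Q] (n ℓ : ℕ) (S : Fin n → Finset Q), 1 ≤ ℓ →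
    (∫ _t in @OP (Pt Q n ℓ) (ptOrder S), (1 : ℝ)) =
        (1 / ((ℓ.factorial : ℝ) ^ n)) * ∫ p in Dom2 Q, Wt S ℓ p ∧
    (∀ x : Q, (∫ t in @OP (Pt Q n ℓ) (ptOrder S), t (Pt.L x)) =
        (1 / ((ℓ.factorial : ℝ) ^ n)) * ∫ p in Dom2 Q, p.1 x * Wt S ℓ p) ∧
    (∀ x : Q, (∫ t in @OP (Pt Q n ℓ) (ptOrder S), t (Pt.R x)) =
        (1 / ((ℓ.factorial : ℝ) ^ n)) * ∫ p in Dom2 Q, (1 - p.2 x) * Wt S ℓ p) ∧
    (∀ (c : Fin n) (i : Fin ℓ), (∫ t in @OP (Pt Q n ℓ) (ptOrder S), t (Pt.C c i)) =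
        (1 / ((ℓ.factorial : ℝ) ^ n)) * ∫ p in Dom2 Q,
          (st (S c) p.1 + (((i : ℕ) : ℝ) + 1) / ((ℓ : ℝ) + 1) *
            (1 - st (S c) p.1 - st (S (Fin.rev c)) p.2)) * Wt S ℓ p)

/-- weight of the left model -/
noncomputable def lw {Q : Type} {n : ℕ} (S : Fin n → Finset Q) (u : Q → ℝ) : ℝ :=
  Real.exp (-∑ c : Fin n, st (S c) u)

/-- every core element lies below some chain -/
def Cov {Q : Type} [PartialOrder Q] {n : ℕ} (S : Fin n → Finset Q) : Prop :=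
  ∀ x : Q, ∃ c, ∃ s ∈ S c, x ≤ s

/-- heights of the core elements in the left model -/
noncomputable def Hc {Q : Type} [Fintype Q] [PartialOrder Q] {n : ℕ} (S : Fin n → Finset Q) (x : Q) : ℝ :=
  (n : ℝ) * ((∫ u in Cone Q, u x * lw S u) / (∫ u in Cone Q, lw S u))

/-- offsets of the chains in the left model -/
noncomputable def Oc {Q : Type} [Fintype Q] [PartialOrder Q] {n : ℕ} (S : Fin n → Finset Q) (c : Fin n) : ℝ :=
  (n : ℝ) * ((∫ u in Cone Q, st (S c) u * lw S u) / (∫ u in Cone Q, lw S u))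

/-- two-sided integrals: integrability, positivity, symmetry -/
def S_SYM : Prop :=
  ∀ (Q : Type) [Fintype Q] [Nonempty Q] [PartialOrder Q] (n ℓ : ℕ) (S : Fin n → Finset Q), 1 ≤ ℓ →
    0 < (∫ p in Dom2 Q, Wt S ℓ p) ∧
    IntegrableOn (fun p => Wt S ℓ p) (Dom2 Q) ∧
    (∀ x : Q, IntegrableOn (fun p => p.1 x * Wt S ℓ p) (Dom2 Q) ∧
      IntegrableOn (fun p => p.2 x * Wt S ℓ p) (Dom2 Q) ∧
      (∫ p in Dom2 Q, p.2 x * Wt S ℓ p) = ∫ p in Dom2 Q, p.1 x * Wt S ℓ p) ∧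
    (∀ A : Finset Q, IntegrableOn (fun p => st A p.1 * Wt S ℓ p) (Dom2 Q) ∧
      IntegrableOn (fun p => st A p.2 * Wt S ℓ p) (Dom2 Q) ∧
      (∫ p in Dom2 Q, st A p.2 * Wt S ℓ p) = ∫ p in Dom2 Q, st A p.1 * Wt S ℓ p)

/-- the limit of long chains -/
def S_LIM : Prop :=
  ∀ (Q : Type) [Fintype Q] [Nonempty Q] [PartialOrder Q] (n : ℕ) (S : Fin n → Finset Q), 1 ≤ n → Cov S →
    (∀ x : Q, Tendsto (fun ℓ : ℕ => (ℓ : ℝ) *
        ((∫ p in Dom2 Q, p.1 x * Wt S ℓ p) / (∫ p in Dom2 Q, Wt S ℓ p))) atTop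
        (𝓝 (Hc S x / n))) ∧
    (∀ c : Fin n, Tendsto (fun ℓ : ℕ => (ℓ : ℝ) *
        ((∫ p in Dom2 Q, st (S c) p.1 * Wt S ℓ p) / (∫ p in Dom2 Q, Wt S ℓ p))) atTop
        (𝓝 (Oc S c / n)))

/-- heights in the finite poset in terms of the left data -/
noncomputable def hPt {Q : Type} [Fintype Q] {n : ℕ} (a : Q → ℝ) (b : Fin n → ℝ) (ℓ : ℕ) : Pt Q n ℓ → ℝ
  | .L x => (2 * (Fintype.card Q : ℝ) + n * ℓ + 1) * a x
  | .R x => (2 * (Fintype.card Q : ℝ) + n * ℓ + 1) * (1 - a x)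
  | .C c i => (2 * (Fintype.card Q : ℝ) + n * ℓ + 1) *
      (b c + (((i : ℕ) : ℝ) + 1) / ((ℓ : ℝ) + 1) * (1 - b c - b (Fin.rev c)))

/-- elementary: for large `ℓ` all heights are separated -/
def S_FIN : Prop :=
  ∀ (Q : Type) [Fintype Q] [Nonempty Q] (n : ℕ) (γ : ℝ) (H : Q → ℝ) (O : Fin n → ℝ)
    (a : ℕ → Q → ℝ) (b : ℕ → Fin n → ℝ), 1 ≤ n → 0 < γ → γ < 1 →
    (∀ x, Tendsto (fun ℓ : ℕ => (ℓ : ℝ) * a ℓ x) atTop (𝓝 (H x / n))) →
    (∀ c, Tendsto (fun ℓ : ℕ => (ℓ : ℝ) * b ℓ c) atTop (𝓝 (O c / n))) →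
    (∀ x y, x ≠ y → 1 - γ < |H x - H y|) →
    (∀ c c', c < c' → 1 - γ < O c' - O c) →
    (∀ c c', O c' - O c < n - (1 - γ)) →
    (∀ x c, H x + (1 - γ) < O c + n) →
    ∀ᶠ ℓ in atTop, ∀ x y : Pt Q n ℓ, x ≠ y → 1 - γ < |hPt (a ℓ) (b ℓ) ℓ x - hPt (a ℓ) (b ℓ) ℓ y|

/-- closure theorem -/
def S_GEN : Prop :=
  ∀ (Q : Type) [Fintype Q] [Nonempty Q] [PartialOrder Q] (n : ℕ) (S : Fin n → Finset Q) (γ : ℝ),
    2 ≤ n → 0 < γ → γ < 1 → Cov S →
    (∀ x y, x ≠ y → 1 - γ < |Hc S x - Hc S y|) →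
    (∀ c c', c < c' → 1 - γ < Oc S c' - Oc S c) →
    (∀ c c', Oc S c' - Oc S c < n - (1 - γ)) →
    (∀ x c, Hc S x + (1 - γ) < Oc S c + n) →
    Bad γ

/-! ## 3. The special core: a trunk and the first elements of the chains -/

/-- `r j`: the trunk; `a c`: first element of chain `c` -/
inductive Cr (K n : ℕ) : Type
  | r : Fin K → Cr K n
  | a : Fin n → Cr K n
  deriving DecidableEq

def crEquiv (K n : ℕ) : Cr K n ≃ Fin K ⊕ Fin n where
  toFun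
    | .r x => Sum.inl x
    | .a x => Sum.inr x
  invFun
    | Sum.inl x => .r x
    | Sum.inr x => .a x
  left_inv := by rintro (_ | _) <;> rfl
  right_inv := by rintro (_ | _) <;> rfl

instance (K n : ℕ) : Fintype (Cr K n) := Fintype.ofEquiv _ (crEquiv K n).symm

def crLe {K n : ℕ} (k : Fin n → ℕ) : Cr K n → Cr K n → Prop
  | .r i, .r j => i ≤ j
  | .a c, .a c' => c = c'
  | .r j, .a c => (j : ℕ) < k c
  | .a _, .r _ => False

@[instance_reducible] def crOrder {K n : ℕ} (k : Fin n → ℕ) : PartialOrder (Cr K n) where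
  le := crLe k
  le_refl := by rintro (_ | _) <;> simp [crLe]
  le_trans := by
    rintro (a | a) (b | b) (c | c) h1 h2 <;> simp only [crLe] at * <;>
      first
        | exact le_trans h1 h2
        | exact h1.trans h2
        | exact h2.elim
        | exact h1.elim
        | (exact lt_of_le_of_lt h1 h2)
        | (subst h2; exact h1)
  le_antisymm := by
    rintro (a | a) (b | b) h1 h2 <;> simp only [crLe] at * <;>
      first
        | (rw [le_antisymm h1 h2])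
        | (rw [h1])
        | exact h1.elim
        | exact h2.elim

/-- chain `c` starts after its first element and after the first `l c` trunk elements -/
def crS {K n : ℕ} (l : Fin n → ℕ) (c : Fin n) : Finset (Cr K n) :=
  univ.filter (fun x => x = Cr.a c ∨ ∃ j : Fin K, x = Cr.r j ∧ (j : ℕ) + 1 = l c)

/-! ## 4. The trunk law in the increments -/

/-- partial sums: `rr t j = t 0 + ... + t (j-1)` -/
noncomputable def rr {K : ℕ} (t : Fin K → ℝ) (j : ℕ) : ℝ := ∑ i : Fin K, if (i : ℕ) < j then t i else 0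

noncomputable def ff (x : ℝ) : ℝ := x ^ 2 / (1 + x)
noncomputable def gg (x : ℝ) : ℝ := x / (1 + x)

/-- density of the increments -/
noncomputable def den {ι : Type} [Fintype ι] (K : ℕ) (k l : ι → ℕ) (t : Fin K → ℝ) : ℝ :=
  ∏ c : ι, (Real.exp (-(rr t (l c))) * (1 + rr t (l c) - rr t (k c)))

def Pos (K : ℕ) : Set (Fin K → ℝ) := {t | ∀ i, 0 < t i}

/-- expectation under the trunk law -/
noncomputable def EE {ι : Type} [Fintype ι] (K : ℕ) (k l : ι → ℕ) (F : (Fin K → ℝ) → ℝ) : ℝ :=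
  (∫ t in Pos K, F t * den K k l t) / (∫ t in Pos K, den K k l t)

/-- admissible design -/
def Adm {ι : Type} [Fintype ι] (K : ℕ) (k l : ι → ℕ) : Prop :=
  (∀ c, k c ≤ l c) ∧ (∀ c, l c ≤ K) ∧ ∃ c, l c = K

noncomputable def eR {ι : Type} [Fintype ι] (K : ℕ) (k l : ι → ℕ) (j : ℕ) : ℝ :=
  EE K k l (fun t => rr t j)
noncomputable def eF {ι : Type} [Fintype ι] (K : ℕ) (k l : ι → ℕ) (u v : ℕ) : ℝ :=
  EE K k l (fun t => ff (rr t v - rr t u))
noncomputable def eG {ι : Type} [Fintype ι] (K : ℕ) (k l : ι → ℕ) (u v : ℕ) : ℝ :=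
  EE K k l (fun t => gg (rr t v - rr t u))

/-- evaluation of the left model of the special core -/
def S_EVAL : Prop :=
  ∀ (K n : ℕ) (k l : Fin n → ℕ), 1 ≤ K → 1 ≤ n → Adm K k l →
    (∀ j : Fin K, @Hc (Cr K n) _ (crOrder k) n (crS l) (Cr.r j) = n * eR K k l ((j : ℕ) + 1)) ∧
    (∀ c : Fin n, @Hc (Cr K n) _ (crOrder k) n (crS l) (Cr.a c) =
      n * (1 + eR K k l (k c) + eF K k l (k c) (l c) / 2)) ∧
    (∀ c : Fin n, @Oc (Cr K n) _ (crOrder k) n (crS l) c =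
      n * (1 + eR K k l (k c) + eF K k l (k c) (l c)))

/-! ## 5. Bounds for the trunk law -/

/-- number of chains not started before increment `j` -/
noncomputable def Mn {ι : Type} [Fintype ι] (k : ι → ℕ) (j : ℕ) : ℕ :=
  (univ.filter (fun c => j < k c)).card

/-- one-dimensional integration by parts, for the slices of the density -/
def S_IBP : Prop :=
  ∀ (κ : Type) [Fintype κ] (b : κ → ℝ) (lam : ℝ) (F F' : ℝ → ℝ) (C : ℝ) (m : ℕ),
    (∀ c, 1 ≤ b c) → 0 < lam →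
    (∀ s, 0 ≤ s → HasDerivAt F (F' s) s) →
    (∀ s, 0 ≤ s → |F s| ≤ C * (1 + s) ^ m) → (∀ s, 0 ≤ s → |F' s| ≤ C * (1 + s) ^ m) →
    Measurable F' →
    (∫ s in Set.Ioi (0 : ℝ), (F s + s * F' s) * (Real.exp (-lam * s) * ∏ c, (b c + s))) =
      ∫ s in Set.Ioi (0 : ℝ), s * F s * (lam - ∑ c, 1 / (b c + s)) *
        (Real.exp (-lam * s) * ∏ c, (b c + s))

/-- logarithmic derivative of the density in the increment `j`, with the opposite sign -/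
noncomputable def mm {ι : Type} [Fintype ι] {K : ℕ} (k l : ι → ℕ) (j : ℕ) (t : Fin K → ℝ) : ℝ :=
  (Mn k j : ℝ) + ∑ c : ι, if k c ≤ j ∧ j < l c then gg (rr t (l c) - rr t (k c)) else 0

/-- polynomial growth on the closed orthant -/
def PolyB {K : ℕ} (F : (Fin K → ℝ) → ℝ) : Prop :=
  ∃ (C : ℝ) (m : ℕ), ∀ t : Fin K → ℝ, (∀ i, 0 ≤ t i) → |F t| ≤ C * (1 + ∑ i, t i) ^ m

/-- integrability against the density and positivity of the normalisation -/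
def S_INT : Prop :=
  ∀ (ι : Type) [Fintype ι] (K : ℕ) (k l : ι → ℕ), Adm K k l →
    (∀ t ∈ Pos K, 0 < den K k l t) ∧ (0 < ∫ t in Pos K, den K k l t) ∧
    ∀ F : (Fin K → ℝ) → ℝ, Measurable F → PolyB F → IntegrableOn (fun t => F t * den K k l t) (Pos K)

/-- integration by parts in the increment `j` -/
def S_MIBP : Prop :=
  ∀ (ι : Type) [Fintype ι] (K : ℕ) (k l : ι → ℕ), Adm K k l →
    ∀ (j : Fin K) (F F' : (Fin K → ℝ) → ℝ), Measurable F → Measurable F' → PolyB F → PolyB F' →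
      (∀ t : Fin K → ℝ, (∀ i, 0 ≤ t i) →
        HasDerivAt (fun s => F (Function.update t j s)) (F' t) (t j)) →
      EE K k l (fun t => F t + t j * F' t) = EE K k l (fun t => t j * F t * mm k l j t)

/-- bounds of first and second order -/
def S_B12 : Prop :=
  ∀ (ι : Type) [Fintype ι] (K : ℕ) (k l : ι → ℕ), Adm K k l →
    eR K k l 0 = 0 ∧
    (∀ j, j < K → 1 / (Mn l j : ℝ) ≤ eR K k l (j + 1) - eR K k l j) ∧
    (∀ j, j < K → 0 < Mn k j → eR K k l (j + 1) - eR K k l j ≤ 1 / (Mn k j : ℝ)) ∧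
    (∀ (u v : ℕ) (m : ℝ), u ≤ v → v ≤ K → 0 < m → (∀ j, u ≤ j → j < v → (Mn l j : ℝ) ≤ m) →
      ff (((v : ℝ) - u) / m) ≤ eF K k l u v) ∧
    (∀ (u v : ℕ) (m : ℝ), u ≤ v → v ≤ K → 0 < m → (∀ j, u ≤ j → j < v → m ≤ (Mn k j : ℝ)) →
      eF K k l u v ≤ (((v : ℝ) - u) ^ 2 + ((v : ℝ) - u)) / m ^ 2) ∧
    (∀ u v v' : ℕ, u ≤ v → v ≤ v' → v' ≤ K → eF K k l u v + eF K k l v v' ≤ eF K k l u v') ∧
    (∀ u v : ℕ, u ≤ v → v ≤ K → 0 ≤ eF K k l u v ∧ 0 ≤ eG K k l u v ∧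
      eF K k l u v = eR K k l v - eR K k l u - eG K k l u v)

/-- bounds when the only remaining weight is that of the chains of a set `A` -/
def S_B4 : Prop :=
  ∀ (ι : Type) [Fintype ι] (K : ℕ) (k l : ι → ℕ), Adm K k l →
    ∀ (A : Finset ι) (b1 e : ℕ) (m : ℝ), 0 < A.card → (∀ c ∈ A, k c ≤ b1 ∧ l c = K) →
      b1 + 3 ≤ e → e ≤ K → 0 < m → (∀ j, b1 ≤ j → j < e → (Mn l j : ℝ) ≤ m) →
      ∀ u v : ℕ, e ≤ u → u ≤ v → v ≤ K →
        eR K k l v - eR K k l u ≤ ((v : ℝ) - u) / A.card * (1 + m / ((e : ℝ) - b1 - 1)) ∧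
        eF K k l u v ≤ (((v : ℝ) - u) ^ 2 + ((v : ℝ) - u)) / (A.card : ℝ) ^ 2 *
          (1 + 2 * (m / ((e : ℝ) - b1 - 1)) + m ^ 2 / (((e : ℝ) - b1 - 1) * ((e : ℝ) - b1 - 2)))

/-- bounds for `gg` -/
def S_B56 : Prop :=
  ∀ (ι : Type) [Fintype ι] (K : ℕ) (k l : ι → ℕ), Adm K k l →
    (∀ u v u' v' : ℕ, u' ≤ u → u ≤ v → v ≤ v' → v' ≤ K → eG K k l u v ≤ eG K k l u' v') ∧
    (∀ (u v : ℕ) (m m' : ℝ), u ≤ v → v ≤ K → 0 < m → 0 < m' →
      (∀ j, u ≤ j → j < v → (Mn l j : ℝ) ≤ m) → (∀ j, u ≤ j → j < v → m' ≤ (Mn k j : ℝ)) →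
      ((v : ℝ) - u) / m - (((v : ℝ) - u) ^ 2 + ((v : ℝ) - u)) / m' ^ 2 ≤ eG K k l u v) ∧
    (∀ j : ℕ, j < K → 0 < Mn k j → 0 ≤ 1 / (Mn l j : ℝ) - 2 / (Mn k j : ℝ) ^ 2 →
      (1 / (Mn l j : ℝ) - 2 / (Mn k j : ℝ) ^ 2) * (1 - 2 * (eR K k l K - eR K k l (j + 1))) ≤
        eG K k l j K - eG K k l (j + 1) K)

/-! ## 6. The left theorem -/

/-- the design data needed for the closure -/
def GoodLeft (γ : ℝ) : Prop :=
  ∃ (ι : Type) (_ : Fintype ι) (K : ℕ) (k l : ι → ℕ), 2 ≤ Fintype.card ι ∧ 1 ≤ K ∧ Adm K k l ∧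
    (∀ c c', c ≠ c' →
      1 - γ < (Fintype.card ι : ℝ) *
        |(eR K k l (k c) + eF K k l (k c) (l c)) - (eR K k l (k c') + eF K k l (k c') (l c'))| ∧
      1 - γ < (Fintype.card ι : ℝ) *
        |(eR K k l (k c) + eF K k l (k c) (l c) / 2) - (eR K k l (k c') + eF K k l (k c') (l c') / 2)|) ∧
    (Fintype.card ι : ℝ) * eR K k l K ≤ (Fintype.card ι : ℝ) - 1

def S_LEFT : Prop := ∀ γ : ℝ, 0 < γ → GoodLeft γ

/-- from the left theorem to the posets -/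
def S_TOP : Prop := ∀ γ : ℝ, 0 < γ → γ < 1 → GoodLeft γ → Bad γ

end Pool.Agent.N380.KG
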